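import Mathlib
import Pool.Agent.N251.GA.Leaves

/-!
# The arithmetic data for number fields
-/

set_option autoImplicit false

namespace Pool.Agent.N186.GANF

open NumberField IsDedekindDomain Pool.Agent.N251.GA

/-! ### the norm -/

theorem prod_eq {K : Type} [Field K] [NumberField K] (x : 𝓞 K) :
    ∏ φ : K →+* ℂ, ‖φ x‖ = ((Algebra.norm ℤ x).natAbs : ℝ) := by
  have h1 : ∏ φ : K →+* ℂ, ‖φ x‖ = ‖algebraMap ℚ ℂ (Algebra.norm ℚ (x : K))‖ := by
    rw [Algebra.norm_eq_prod_embeddings ℚ ℂ (x : K), norm_prod]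
    exact Fintype.prod_equiv (RingHom.equivRatAlgHom K ℂ) _ _
      (fun φ => by simp [RingHom.equivRatAlgHom_apply])
  rw [h1, ← Algebra.coe_norm_int]
  have h2 : algebraMap ℚ ℂ ((Algebra.norm ℤ x : ℤ) : ℚ) = ((Algebra.norm ℤ x : ℤ) : ℂ) := by simp
  rw [h2, Complex.norm_intCast, Nat.cast_natAbs, Int.cast_abs]

theorem natAbs_pos {K : Type} [Field K] [NumberField K] (x : 𝓞 K) (hx : x ≠ 0) :
    0 < (Algebra.norm ℤ x).natAbs := by
  have := Algebra.norm_ne_zero_iff (R := ℤ).2 hx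
  exact Int.natAbs_pos.2 this

theorem one_le_norm {K : Type} [Field K] [NumberField K] (x : 𝓞 K) (hx : x ≠ 0) :
    1 ≤ ∏ φ : K →+* ℂ, ‖φ x‖ := by
  rw [prod_eq]
  exact_mod_cast natAbs_pos x hx

/-! ### the radical -/

theorem absNorm_ge_one {K : Type} [Field K] [NumberField K] (P : HeightOneSpectrum (𝓞 K)) :
    (1 : ℝ) ≤ (Ideal.absNorm P.asIdeal : ℝ) := by
  have : Ideal.absNorm P.asIdeal ≠ 0 := by
    rw [Ne, Ideal.absNorm_eq_zero_iff]; exact P.ne_bot
  exact_mod_cast Nat.one_le_iff_ne_zero.2 this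

theorem finPP {K : Type} [Field K] [NumberField K] (x : 𝓞 K) (hx : x ≠ 0) :
    {P : HeightOneSpectrum (𝓞 K) | x ∈ P.asIdeal}.Finite := by
  have h : Ideal.span {x} ≠ 0 := by simpa using hx
  refine (Ideal.finite_factors h).subset ?_
  intro P hP
  simpa [Ideal.dvd_span_singleton] using hP

theorem radK_eq {K : Type} [Field K] [NumberField K] (x : 𝓞 K) (hx : x ≠ 0) :
    radK x = ∏ P ∈ (finPP x hx).toFinset, (Ideal.absNorm P.asIdeal : ℝ) := by
  have : radK x = ∏ᶠ (P : HeightOneSpectrum (𝓞 K))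
      (_ : P ∈ {P : HeightOneSpectrum (𝓞 K) | x ∈ P.asIdeal}), (Ideal.absNorm P.asIdeal : ℝ) := rfl
  rw [this, finprod_mem_eq_finite_toFinset_prod]

theorem one_le_prod {K : Type} [Field K] [NumberField K] (s : Finset (HeightOneSpectrum (𝓞 K))) :
    (1 : ℝ) ≤ ∏ P ∈ s, (Ideal.absNorm P.asIdeal : ℝ) := by
  classical
  induction s using Finset.induction_on with
  | empty => simp
  | insert a s ha ih =>
      rw [Finset.prod_insert ha]
      nlinarith [absNorm_ge_one a]

theorem prod_mono {K : Type} [Field K] [NumberField K] (s t : Finset (HeightOneSpectrum (𝓞 K)))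
    (h : s ⊆ t) :
    ∏ P ∈ s, (Ideal.absNorm P.asIdeal : ℝ) ≤ ∏ P ∈ t, (Ideal.absNorm P.asIdeal : ℝ) := by
  classical
  rw [← Finset.prod_sdiff h]
  have h1 := one_le_prod (t \ s)
  have h2 := one_le_prod s
  nlinarith

theorem one_le_radK {K : Type} [Field K] [NumberField K] (x : 𝓞 K) : 1 ≤ radK x := by
  unfold radK
  refine finprod_induction (p := fun r : ℝ => 1 ≤ r) le_rfl (fun a b ha hb => ?_) (fun P => ?_)
  · nlinarith
  · refine finprod_induction (p := fun r : ℝ => 1 ≤ r) le_rfl (fun a b ha hb => ?_) (fun _ => ?_)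
    · nlinarith
    · exact absNorm_ge_one P

theorem radK_le {K : Type} [Field K] [NumberField K] (x : 𝓞 K) (hx : x ≠ 0) :
    radK x ≤ ∏ φ : K →+* ℂ, ‖φ x‖ := by
  rw [prod_eq, radK_eq x hx]
  have h1 : (∏ P ∈ (finPP x hx).toFinset, P.asIdeal) ∣ Ideal.span {x} := by
    refine Finset.prod_dvd_of_coprime ?_ ?_
    · intro P _ Q _ hPQ
      have hne : P.asIdeal ≠ Q.asIdeal := fun h => hPQ (HeightOneSpectrum.ext h)
      have hP := P.isMaximal
      have hQ := Q.isMaximal
      exact Ideal.isCoprime_of_isMaximal hne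
    · intro P hP
      rw [Ideal.dvd_span_singleton]
      simpa using hP
  have h2 := Ideal.absNorm_dvd_absNorm_of_le (Ideal.dvd_iff_le.1 h1)
  rw [map_prod, Ideal.absNorm_span_singleton] at h2
  have h3 := Nat.le_of_dvd (natAbs_pos x hx) h2
  exact_mod_cast h3

theorem radK_mul_le {K : Type} [Field K] [NumberField K] (x y : 𝓞 K) (hx : x ≠ 0) (hy : y ≠ 0) :
    radK (x * y) ≤ radK x * radK y := by
  classical
  rw [radK_eq x hx, radK_eq y hy, radK_eq (x * y) (mul_ne_zero hx hy)]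
  have hsub : (finPP (x * y) (mul_ne_zero hx hy)).toFinset ⊆
      (finPP x hx).toFinset ∪ (finPP y hy).toFinset := by
    intro P hP
    have hP' : x * y ∈ P.asIdeal := by simpa using hP
    rw [Finset.mem_union, Set.Finite.mem_toFinset, Set.Finite.mem_toFinset]
    exact P.isPrime.mem_or_mem hP'
  refine (prod_mono _ _ hsub).trans ?_
  have h := Finset.prod_union_inter (s₁ := (finPP x hx).toFinset) (s₂ := (finPP y hy).toFinset)
    (f := fun P : HeightOneSpectrum (𝓞 K) => (Ideal.absNorm P.asIdeal : ℝ))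
  rw [← h]
  have h1 := one_le_prod ((finPP x hx).toFinset ∩ (finPP y hy).toFinset)
  have h2 := one_le_prod ((finPP x hx).toFinset ∪ (finPP y hy).toFinset)
  nlinarith

theorem radK_mono {K : Type} [Field K] [NumberField K] (x y : 𝓞 K) (k : ℕ) (hy : y ≠ 0)
    (h : x ∣ y ^ k) : radK x ≤ radK y := by
  have hx : x ≠ 0 := fun h0 => pow_ne_zero k hy (by rw [h0] at h; exact zero_dvd_iff.1 h)
  rw [radK_eq x hx, radK_eq y hy]
  refine prod_mono _ _ ?_
  intro P hP
  have hP' : x ∈ P.asIdeal := by simpa using hP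
  rw [Set.Finite.mem_toFinset]
  exact P.isPrime.mem_of_pow_mem k (P.asIdeal.mem_of_dvd h hP')

/-! ### idempotents -/

theorem idem_fin {S : Type} [Monoid S] [Finite S] :
    ∃ k : ℕ, 1 ≤ k ∧ ∀ x : S, x ^ k * x ^ k = x ^ k := by
  classical
  haveI := Fintype.ofFinite S
  refine ⟨(Fintype.card S).factorial, Nat.factorial_pos _, fun x => ?_⟩
  obtain ⟨a, b, hab, h⟩ := Fintype.exists_ne_map_eq_of_card_lt
    (fun i : Fin (Fintype.card S + 1) => x ^ (i : ℕ)) (by simp)
  wlog hlt : a < b generalizing a b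
  · exact this b a hab.symm h.symm (lt_of_le_of_ne (not_lt.1 hlt) hab.symm)
  have hlt' : (a : ℕ) < b := hlt
  set c : ℕ := (b : ℕ) - a with hc
  have hc1 : 1 ≤ c := by omega
  have hcm : c ≤ Fintype.card S := by have := b.2; omega
  have ham : (a : ℕ) ≤ Fintype.card S := by have := a.2; omega
  have hstep : ∀ n, (a : ℕ) ≤ n → x ^ (n + c) = x ^ n := by
    intro n hn
    have h1 : n + c = (n - a) + b := by omega
    have h2 : n = (n - a) + a := by omega
    rw [h1, pow_add, ← (show x ^ (a : ℕ) = x ^ (b : ℕ) from h), ← pow_add, ← h2]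
  have hmany : ∀ j n, (a : ℕ) ≤ n → x ^ (n + c * j) = x ^ n := by
    intro j
    induction j with
    | zero => intro n _; simp
    | succ j ih =>
        intro n hn
        rw [Nat.mul_succ, ← add_assoc, hstep _ (by omega), ih n hn]
  obtain ⟨j, hj⟩ := Nat.dvd_factorial (by omega : 0 < c) hcm
  have hle : (a : ℕ) ≤ (Fintype.card S).factorial := ham.trans (Nat.self_le_factorial _)
  rw [← pow_add]
  conv_lhs => rw [show (Fintype.card S).factorial + (Fintype.card S).factorial =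
    (Fintype.card S).factorial + c * j by rw [← hj]]
  exact hmany j _ hle

theorem idemK {K : Type} [Field K] [NumberField K] (N : ℕ) (hN : N ≠ 0) :
    ∃ k : ℕ, 1 ≤ k ∧ ∀ x : 𝓞 K, (N : 𝓞 K) ∣ x ^ k * (x ^ k - 1) := by
  have hN' : (N : 𝓞 K) ≠ 0 := by exact_mod_cast hN
  have hI : Ideal.span {(N : 𝓞 K)} ≠ ⊥ := by simpa using hN'
  haveI : Finite (𝓞 K ⧸ Ideal.span {(N : 𝓞 K)}) :=
    Ideal.finiteQuotientOfFreeOfNeBot _ hI
  obtain ⟨k, hk, h⟩ := idem_fin (S := 𝓞 K ⧸ Ideal.span {(N : 𝓞 K)})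
  refine ⟨k, hk, fun x => ?_⟩
  rw [← Ideal.mem_span_singleton, ← Ideal.Quotient.eq_zero_iff_mem, map_mul, map_sub, map_pow,
    map_one, mul_sub, mul_one, h, sub_self]

theorem t : LeafNF := fun _ _ _ =>
  ⟨one_le_norm, one_le_radK, radK_le, radK_mul_le, radK_mono, idemK⟩

end Pool.Agent.N186.GANF
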